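import Pool.Agent.X88.PC.Lim

set_option autoImplicit false

/-!
# The critical curve of random pinning at its endpoint

Simple random walk on the integers, rewards `lam (1 + s η_i)` for the visits to zero, `+h` for every
edge in the upper and `-h` for every edge in the lower half-plane. If `h_c(lam, s) = ∞` for every
`lam > lam_c`, then `h_c(lam_c, s) = ∞`, for every centred law with exponential moments.
-/

open MeasureTheory Filter
open scoped Topology

namespace Pool.Agent.Results.MP_11b949_pr.CriticalCurveEndpoint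

/-- The step of the walk that belongs to a coin. -/
def step (b : Bool) : ℤ := if b then 1 else -1

/-- The position at time `i` of the simple random walk from `0` with steps given by `e`. -/
def pos {n : ℕ} (e : Fin n → Bool) (i : ℕ) : ℤ :=
  ∑ j : Fin n, if (j : ℕ) < i then step (e j) else 0

/-- The energy of a path of length `n`; `η i` is the disorder variable of time `i + 1`. The sign of
the edge from time `i` to time `i + 1` is the sign of the sum of its two heights. -/
noncomputable def H (lam h s : ℝ) (η : ℕ → ℝ) {n : ℕ} (e : Fin n → Bool) : ℝ :=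
  ∑ i ∈ Finset.range n, (lam * (1 + s * η i) * (if pos e (i + 1) = 0 then 1 else 0) +
    h * ((Int.sign (pos e i + pos e (i + 1)) : ℤ) : ℝ))

/-- The partition function: the mean of `exp H` over the `2 ^ n` paths of length `n`. -/
noncomputable def Z (lam h s : ℝ) (n : ℕ) (η : ℕ → ℝ) : ℝ :=
  (∑ e : Fin n → Bool, Real.exp (H lam h s η e)) / 2 ^ n

/-- The law of the i.i.d. sequence `η` with one-dimensional marginal `μ`. -/
noncomputable def env (μ : Measure ℝ) : Measure (ℕ → ℝ) := Measure.infinitePi fun _ : ℕ => μ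

/-- `f` is the quenched free energy at `(lam, h, s)`: the almost sure limit of
`(1/n) log Z_n`. -/
def IsFreeEnergy (μ : Measure ℝ) (lam h s f : ℝ) : Prop :=
  ∀ᵐ η ∂(env μ), Tendsto (fun n : ℕ => Real.log (Z lam h s n η) / n) atTop (𝓝 f)

/-- The same with convergence in probability. -/
def IsFreeEnergyInProbability (μ : Measure ℝ) (lam h s f : ℝ) : Prop :=
  TendstoInMeasure (env μ) (fun (n : ℕ) (η : ℕ → ℝ) => Real.log (Z lam h s n η) / n) atTop
    (fun _ => f)

/-- The critical curve `h_c(lam) ∈ [0, ∞]` when `deloc lam h` says that the model is delocalized at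
`(lam, h)`: the infimum of the `h ≥ 0` with `deloc lam h`. -/
noncomputable def criticalCurve (deloc : ℝ → ℝ → Prop) (lam : ℝ) : EReal :=
  ⨅ h : {h : ℝ // 0 ≤ h ∧ deloc lam h}, ((h : ℝ) : EReal)

theorem pos_eq {n : ℕ} (e : Fin n → Bool) : pos e = Pool.Agent.X88.PC.walk 0 e := by
  funext i
  unfold pos Pool.Agent.X88.PC.walk
  rw [zero_add]
  rfl

theorem logZ_eq (lam h s : ℝ) (n : ℕ) (η : ℕ → ℝ) :
    Real.log (Z lam h s n η) = Pool.Agent.X88.PC.LZ lam s h n η + h * n := by
  have h1 : ∑ e : Fin n → Bool, Real.exp (H lam h s η e) =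
      Pool.Agent.X88.PC.V (Pool.Agent.X88.PC.rew lam s η) h n 0 := by
    unfold Pool.Agent.X88.PC.V Pool.Agent.X88.PC.PS
    refine Finset.sum_congr rfl fun e _ => ?_
    rw [mul_one]
    congr 1
    unfold H Pool.Agent.X88.PC.ham Pool.Agent.X88.PC.rew
    rw [pos_eq]
    refine Finset.sum_congr rfl fun i _ => ?_
    split_ifs <;> ring
  unfold Z Pool.Agent.X88.PC.LZ
  rw [h1, Real.log_div (Pool.Agent.X88.PC.V_pos _ _ _ _).ne' (by positivity), Real.log_pow]
  ring

theorem criticalCurve_eq_top (deloc : ℝ → ℝ → Prop) (lam : ℝ) :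
    criticalCurve deloc lam = ⊤ ↔ ∀ h : ℝ, 0 ≤ h → ¬ deloc lam h := by
  unfold criticalCurve
  rw [iInf_eq_top]
  constructor
  · intro h1 h hh hd
    exact absurd (h1 ⟨h, hh, hd⟩) (EReal.coe_ne_top _)
  · rintro h1 ⟨h, hh, hd⟩
    exact absurd hd (h1 h hh)

theorem inProb_iff (μ : Measure ℝ) [IsProbabilityMeasure μ] (lam h s : ℝ) :
    IsFreeEnergyInProbability μ lam h s h ↔ Pool.Agent.X88.PC.Del μ lam s h := by
  unfold IsFreeEnergyInProbability Pool.Agent.X88.PC.Del env
  rw [tendstoInMeasure_iff_measureReal_norm]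
  refine forall_congr' fun ε => forall_congr' fun hε => ?_
  apply tendsto_congr'
  filter_upwards [eventually_ge_atTop 1] with n hn
  have hn0 : (n : ℝ) ≠ 0 := by positivity
  congr 1
  ext η
  simp only [Set.mem_ofPred_eq, Real.norm_eq_abs]
  rw [logZ_eq, add_div, mul_div_assoc, div_self hn0, mul_one, add_sub_cancel_right]

theorem as_inProb (μ : Measure ℝ) [IsProbabilityMeasure μ] (lam h s f : ℝ)
    (hf : IsFreeEnergy μ lam h s f) : IsFreeEnergyInProbability μ lam h s f := by
  unfold IsFreeEnergyInProbability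
  unfold IsFreeEnergy at hf
  have : IsProbabilityMeasure (env μ) := by unfold env; infer_instance
  refine tendstoInMeasure_of_tendsto_ae (fun n => ?_) hf
  have h1 : (fun η : ℕ → ℝ => Real.log (Z lam h s n η) / n) =
      fun η => (Pool.Agent.X88.PC.LZ lam s h n η + h * n) / n := by
    funext η
    rw [logZ_eq]
  rw [h1]
  exact (((Pool.Agent.X88.PC.LZ_measurable lam s h n).add_const _).div_const _).aestronglyMeasurable

/-- **The critical curve is infinite at its endpoint.** -/
theorem result (μ : Measure ℝ) [IsProbabilityMeasure μ] (hmean : ∫ x, x ∂μ = 0) (s : ℝ) (hs : 0 < s)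
    (lamc : ℝ) (hl : 0 ≤ lamc)
    (hexp : ∃ θ : ℝ, s * lamc < θ ∧ Integrable (fun x : ℝ => Real.exp (θ * |x|)) μ) :
    -- delocalization at `(lam, h)` as convergence of `(1/n) log Z_n` to `h` in probability
    ((∀ lam, lamc < lam →
        criticalCurve (fun lam h => IsFreeEnergyInProbability μ lam h s h) lam = ⊤) →
      criticalCurve (fun lam h => IsFreeEnergyInProbability μ lam h s h) lamc = ⊤) ∧
    -- the same with the almost sure limit `f` of the problem
    (∀ f : ℝ → ℝ → ℝ, (∀ lam h, 0 ≤ lam → 0 ≤ h → IsFreeEnergy μ lam h s (f lam h)) →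
      (∀ lam, lamc < lam → criticalCurve (fun lam h => f lam h = h) lam = ⊤) →
      criticalCurve (fun lam h => f lam h = h) lamc = ⊤) := by
  obtain ⟨θ, hθ, hθi⟩ := hexp
  constructor
  · intro h1
    simp only [criticalCurve_eq_top] at h1 ⊢
    intro h hh hd
    rw [inProb_iff] at hd
    obtain ⟨lam, hlam, hD⟩ := Pool.Agent.X88.PC.main_step μ hmean s hs lamc θ hl hθ hθi h hh hd
    rw [← inProb_iff] at hD
    exact h1 lam hlam (h + 1) (by linarith) hD
  · intro f hf h1
    simp only [criticalCurve_eq_top] at h1 ⊢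
    intro h hh hd
    have : IsProbabilityMeasure (env μ) := by unfold env; infer_instance
    have h2 := as_inProb μ lamc h s _ (hf lamc h hl hh)
    rw [hd, inProb_iff] at h2
    obtain ⟨lam, hlam, hD⟩ := Pool.Agent.X88.PC.main_step μ hmean s hs lamc θ hl hθ hθi h hh h2
    rw [← inProb_iff] at hD
    have h3 := as_inProb μ lam (h + 1) s _ (hf lam (h + 1) (by linarith) (by linarith))
    have h4 : f lam (h + 1) = h + 1 := by
      have h5 := tendstoInMeasure_ae_unique h3 hD
      by_contra hne
      have h6 : ∀ᵐ η ∂(env μ), False := by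
        filter_upwards [h5] with η h7
        exact hne h7
      simp at h6
      exact IsProbabilityMeasure.ne_zero (env μ) h6
    exact h1 lam hlam (h + 1) (by linarith) h4

end Pool.Agent.Results.MP_11b949_pr.CriticalCurveEndpoint
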